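import Mathlib
import Pool.Agent.Helper805.CHS.Density

set_option autoImplicit false

namespace Pool.Agent.TH953.PP

theorem single_conn {V : Type} (G : SimpleGraph V) (u : V) : (G.induce {u}).Connected := by
  rw [SimpleGraph.connected_iff_exists_forall_reachable]
  refine ⟨⟨u, rfl⟩, ?_⟩
  rintro ⟨v, rfl⟩
  exact SimpleGraph.Reachable.refl _

/-- a walk from outside `B` into `B` has a connected initial part that avoids `B` and touches it -/
theorem prefix_set {V : Type} {G : SimpleGraph V} (B : Set V) {u v : V} (p : G.Walk u v) :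
    u ∉ B → v ∈ B →
    ∃ A : Set V, u ∈ A ∧ (G.induce A).Connected ∧ (∀ x ∈ A, x ∈ p.support) ∧ Disjoint A B ∧
      ∃ a ∈ A, ∃ b ∈ B, G.Adj a b := by
  induction p with
  | nil => intro h1 h2; exact absurd h2 h1
  | @cons u w v h q ih =>
    intro hu hv
    by_cases hw : w ∈ B
    · refine ⟨{u}, rfl, ?_, ?_, ?_, u, rfl, w, hw, h⟩
      · exact single_conn G u
      · intro x hx
        rw [Set.mem_singleton_iff] at hx
        subst hx
        simp
      · rw [Set.disjoint_singleton_left]; exact hu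
    · obtain ⟨A, hwA, hc, hs, hd, a, ha, b, hb, hab⟩ := ih hw hv
      refine ⟨{u} ∪ A, Or.inl rfl, ?_, ?_, ?_, a, Or.inr ha, b, hb, hab⟩
      · exact SimpleGraph.connected_induce_union (single_conn G u).preconnected
          hc.preconnected rfl hwA h
      · rintro x (hx | hx)
        · rw [Set.mem_singleton_iff] at hx
          subst hx
          simp
        · rw [SimpleGraph.Walk.support_cons]
          exact List.mem_cons_of_mem _ (hs x hx)
      · rw [Set.disjoint_union_left, Set.disjoint_singleton_left]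
        exact ⟨hu, hd⟩

/-- union of connected sets through a hub -/
theorem hub_connected {V : Type} {G : SimpleGraph V} (s : Set V) (u : V) (hu : u ∈ s)
    (h : ∀ v ∈ s, ∃ A : Set V, A ⊆ s ∧ u ∈ A ∧ v ∈ A ∧ (G.induce A).Connected) :
    (G.induce s).Connected := by
  apply SimpleGraph.induce_connected_of_patches u hu
  intro v hv
  obtain ⟨A, hA, huA, hvA, hc⟩ := h v hv
  exact ⟨A, hA, huA, hvA, hc.preconnected _ _⟩

/-- the system of path supports `Z` -/
def IsZ {V : Type} (G : SimpleGraph V) (Z : V → V → Set V) : Prop :=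
  ∀ u v, u ≠ v → ∃ p : G.Walk u v, ∀ x, x ∈ Z u v ↔ x ∈ p.support

theorem IsZ.conn {V : Type} {G : SimpleGraph V} {Z : V → V → Set V} (h : IsZ G Z) {u v : V}
    (huv : u ≠ v) : (G.induce (Z u v)).Connected := by
  obtain ⟨p, hp⟩ := h u v huv
  have : Z u v = {x | x ∈ p.support} := by ext x; exact hp x
  rw [this]
  exact p.connected_induce_support

theorem IsZ.left {V : Type} {G : SimpleGraph V} {Z : V → V → Set V} (h : IsZ G Z) {u v : V}
    (huv : u ≠ v) : u ∈ Z u v := by
  obtain ⟨p, hp⟩ := h u v huv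
  rw [hp]; exact p.start_mem_support

theorem IsZ.right {V : Type} {G : SimpleGraph V} {Z : V → V → Set V} (h : IsZ G Z) {u v : V}
    (huv : u ≠ v) : v ∈ Z u v := by
  obtain ⟨p, hp⟩ := h u v huv
  rw [hp]; exact p.end_mem_support

/-- Non-crossing systems give complete minors. -/
theorem model_of_noncrossing {V : Type} (G : SimpleGraph V) {t : ℕ} (Z : V → V → Set V)
    (hZ : IsZ G Z) (φ : Fin t × Fin t → V) (hφ : Function.Injective φ)
    (hd : ∀ a b c d : Fin t × Fin t, a ≠ b → c ≠ d → a ≠ c → a ≠ d → b ≠ c → b ≠ d →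
      Disjoint (Z (φ a) (φ b)) (Z (φ c) (φ d))) :
    ∃ f : Fin t → Set V, (∀ i, (G.induce (f i)).Connected) ∧
      (∀ i j, i ≠ j → Disjoint (f i) (f j)) ∧
      (∀ i j, i ≠ j → ∃ u ∈ f i, ∃ v ∈ f j, G.Adj u v) := by
  classical
  -- distinctness helper
  have hne : ∀ a b : Fin t × Fin t, a ≠ b → φ a ≠ φ b := fun a b h h' => h (hφ h')
  -- base branch sets
  set B : Fin t → Set V := fun r => {x | x = φ (r, r) ∨ ∃ s, s ≠ r ∧ x ∈ Z (φ (r, r)) (φ (r, s))}
    with hB
  have hrs : ∀ r s : Fin t, s ≠ r → ((r, r) : Fin t × Fin t) ≠ (r, s) := by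
    intro r s h h'
    exact h (Prod.mk.inj h').2.symm
  have hcenter : ∀ r, φ (r, r) ∈ B r := fun r => Or.inl rfl
  have hterm : ∀ r s, s ≠ r → φ (r, s) ∈ B r := fun r s h =>
    Or.inr ⟨s, h, hZ.right (hne _ _ (hrs r s h))⟩
  -- disjointness of base sets; if `t = 1` there is nothing to prove
  have hBmem : ∀ r q, r ≠ q → ∀ x ∈ B r, ∃ s, s ≠ r ∧ x ∈ Z (φ (r, r)) (φ (r, s)) := by
    intro r q hrq x hx
    rcases hx with hx | ⟨s, hs, hx⟩
    · refine ⟨q, hrq.symm, ?_⟩
      rw [hx]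
      exact hZ.left (hne _ _ (hrs r q hrq.symm))
    · exact ⟨s, hs, hx⟩
  have hBdisj : ∀ r q, r ≠ q → Disjoint (B r) (B q) := by
    intro r q hrq
    rw [Set.disjoint_left]
    intro x hx hx'
    obtain ⟨s, hs, h1⟩ := hBmem r q hrq x hx
    obtain ⟨s', hs', h2⟩ := hBmem q r hrq.symm x hx'
    refine Set.disjoint_left.1 (hd (r, r) (r, s) (q, q) (q, s') (hrs r s hs) (hrs q s' hs')
      ?_ ?_ ?_ ?_) h1 h2 <;>
    · intro h'
      exact hrq (Prod.mk.inj h').1
  -- connecting walks avoid the other base sets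
  have hconn_avoid : ∀ r s q, r ≠ s → q ≠ r → q ≠ s →
      Disjoint (Z (φ (r, s)) (φ (s, r))) (B q) := by
    intro r s q hrs' hqr hqs
    rw [Set.disjoint_left]
    intro x hx hx'
    obtain ⟨u, hu, h2⟩ := hBmem q r hqr x hx'
    refine Set.disjoint_left.1 (hd (r, s) (s, r) (q, q) (q, u) ?_ (hrs q u hu)
      ?_ ?_ ?_ ?_) hx h2
    · intro h'; exact hrs' (Prod.mk.inj h').1
    · intro h'; exact hqr (Prod.mk.inj h').1.symm
    · intro h'; exact hqr (Prod.mk.inj h').1.symm
    · intro h'; exact hqs (Prod.mk.inj h').1.symm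
    · intro h'; exact hqs (Prod.mk.inj h').1.symm
  -- prefixes
  have hpre : ∀ r s : Fin t, ∃ A : Set V, r < s → (φ (r, s) ∈ A ∧ (G.induce A).Connected ∧
      (A ⊆ Z (φ (r, s)) (φ (s, r))) ∧ Disjoint A (B s) ∧
      ∃ a ∈ A, ∃ b ∈ B s, G.Adj a b) := by
    intro r s
    by_cases h : r < s
    · have hrs' : r ≠ s := h.ne
      obtain ⟨p, hp⟩ := hZ (φ (r, s)) (φ (s, r))
        (hne _ _ (fun h' => hrs' (Prod.mk.inj h').1))
      obtain ⟨A, h1, h2, h3, h4, h5⟩ := prefix_set (B s) p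
        (fun h' => Set.disjoint_left.1 (hBdisj r s hrs') (hterm r s hrs'.symm) h')
        (hterm s r hrs')
      exact ⟨A, fun _ => ⟨h1, h2, fun x hx => (hp x).2 (h3 x hx), h4, h5⟩⟩
    · exact ⟨∅, fun h' => absurd h' h⟩
  choose A hA using hpre
  refine ⟨fun r => {x | x ∈ B r ∨ ∃ s, r < s ∧ x ∈ A r s}, ?_, ?_, ?_⟩
  · intro r
    apply hub_connected _ (φ (r, r)) (Or.inl (hcenter r))
    rintro v (hv | ⟨s, hs, hv⟩)
    · rcases hv with hv | ⟨s, hs, hv⟩
      · refine ⟨{φ (r, r)}, ?_, rfl, hv, single_conn G _⟩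
        rintro x (rfl : x = _)
        exact Or.inl (hcenter r)
      · refine ⟨Z (φ (r, r)) (φ (r, s)), ?_, hZ.left (hne _ _ (hrs r s hs)), hv,
          hZ.conn (hne _ _ (hrs r s hs))⟩
        intro x hx
        exact Or.inl (Or.inr ⟨s, hs, hx⟩)
    · obtain ⟨h1, h2, h3, h4, h5⟩ := hA r s hs
      have hs' : s ≠ r := hs.ne'
      refine ⟨Z (φ (r, r)) (φ (r, s)) ∪ A r s, ?_, Or.inl (hZ.left (hne _ _ (hrs r s hs'))),
        Or.inr hv, ?_⟩
      · rintro x (hx | hx)
        · exact Or.inl (Or.inr ⟨s, hs', hx⟩)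
        · exact Or.inr ⟨s, hs, hx⟩
      · exact SimpleGraph.induce_union_connected (hZ.conn (hne _ _ (hrs r s hs'))).preconnected
            h2.preconnected
          ⟨φ (r, s), hZ.right (hne _ _ (hrs r s hs')), h1⟩
  · -- disjointness
    have key : ∀ r q, r < q → Disjoint {x | x ∈ B r ∨ ∃ s, r < s ∧ x ∈ A r s}
        {x | x ∈ B q ∨ ∃ s, q < s ∧ x ∈ A q s} := by
      intro r q hrq
      rw [Set.disjoint_left]
      rintro x (hx | ⟨s, hs, hx⟩) (hy | ⟨s', hs', hy⟩)
      · exact Set.disjoint_left.1 (hBdisj r q hrq.ne) hx hy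
      · exact Set.disjoint_left.1 (hconn_avoid q s' r hs'.ne hrq.ne (hrq.trans hs').ne)
          ((hA q s' hs').2.2.1 hy) hx
      · by_cases hsq : s = q
        · subst hsq
          exact Set.disjoint_left.1 (hA r s hs).2.2.2.1 hx hy
        · exact Set.disjoint_left.1 (hconn_avoid r s q hs.ne hrq.ne' (Ne.symm hsq))
            ((hA r s hs).2.2.1 hx) hy
      · refine Set.disjoint_left.1 (hd (r, s) (s, r) (q, s') (s', q) ?_ ?_ ?_ ?_ ?_ ?_)
          ((hA r s hs).2.2.1 hx) ((hA q s' hs').2.2.1 hy)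
        · intro h'; exact hs.ne (Prod.mk.inj h').1
        · intro h'; exact hs'.ne (Prod.mk.inj h').1
        · intro h'; exact hrq.ne (Prod.mk.inj h').1
        · intro h'; exact (hrq.trans hs').ne (Prod.mk.inj h').1
        · intro h'; exact (hrq.trans hs').ne (Prod.mk.inj h').2
        · intro h'; exact hrq.ne (Prod.mk.inj h').2
    intro i j hij
    rcases lt_or_gt_of_ne hij with h | h
    · exact key i j h
    · exact (key j i h).symm
  · intro i j hij
    rcases lt_or_gt_of_ne hij with h | h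
    · obtain ⟨h1, h2, h3, h4, a, ha, b, hb, hab⟩ := hA i j h
      exact ⟨a, Or.inr ⟨j, h, ha⟩, b, Or.inl hb, hab⟩
    · obtain ⟨h1, h2, h3, h4, a, ha, b, hb, hab⟩ := hA j i h
      exact ⟨b, Or.inl hb, a, Or.inr ⟨i, h, ha⟩, hab.symm⟩

end Pool.Agent.TH953.PP
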