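import Mathlib
import Pool.Agent.TH953.PathPair1

set_option autoImplicit false

namespace Pool.Agent.TH953.PP

open Finset

/-- path-pairable, as in the frozen statement -/
def PPair {V : Type} (G : SimpleGraph V) : Prop :=
  ∀ (k : ℕ) (s r : Fin k → V), Function.Injective (Sum.elim s r) →
    ∃ p : (i : Fin k) → G.Walk (s i) (r i),
      (∀ i, (p i).IsPath) ∧
      ∀ i j, i ≠ j → ∀ e ∈ (p i).edges, e ∉ (p j).edges

theorem route {V : Type} [Fintype V] (G : SimpleGraph V) (hpp : PPair G) (S : Finset V)
    (m : V → V) (hinj : Set.InjOn m S) (hdis : ∀ x ∈ S, m x ∉ S) :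
    ∃ (Zs : V → Set V) (Es : V → Set (Sym2 V)),
      (∀ x ∈ S, ∃ p : G.Walk x (m x), (∀ y, y ∈ Zs x ↔ y ∈ p.support) ∧
        (∀ e, e ∈ Es x ↔ e ∈ p.edges)) ∧
      (∀ x ∈ S, ∀ y ∈ S, x ≠ y → ∀ e ∈ Es x, e ∉ Es y) := by
  classical
  set eqv := S.equivFin with heqv
  let s : Fin S.card → V := fun i => (eqv.symm i : V)
  have hs : ∀ i, s i ∈ S := fun i => (eqv.symm i).2
  have hsinj : Function.Injective s := by
    intro i j h
    exact eqv.symm.injective (Subtype.ext h)
  have hel : Function.Injective (Sum.elim s (fun i => m (s i))) := by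
    rintro (i | i) (j | j) h
    · exact congrArg Sum.inl (hsinj h)
    · exfalso
      have h' : s i = m (s j) := h
      exact hdis (s j) (hs j) (h' ▸ hs i)
    · exfalso
      have h' : m (s i) = s j := h
      exact hdis (s i) (hs i) (h'.symm ▸ hs j)
    · have h' : m (s i) = m (s j) := h
      exact congrArg Sum.inr (hsinj (hinj (hs i) (hs j) h'))
  obtain ⟨p, hp1, hp2⟩ := hpp S.card s (fun i => m (s i)) hel
  refine ⟨fun x => {y | ∃ i, s i = x ∧ y ∈ (p i).support},
    fun x => {e | ∃ i, s i = x ∧ e ∈ (p i).edges}, ?_, ?_⟩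
  · intro x hx
    set i := eqv ⟨x, hx⟩ with hi
    have hsi : s i = x := by
      simp [s, hi]
    refine ⟨(p i).copy hsi (by simp only [hsi]), ?_, ?_⟩
    · intro y
      rw [SimpleGraph.Walk.support_copy]
      constructor
      · rintro ⟨j, hj, hy⟩
        have : j = i := hsinj (hj.trans hsi.symm)
        rw [← this]; exact hy
      · intro hy
        exact ⟨i, hsi, hy⟩
    · intro e
      rw [SimpleGraph.Walk.edges_copy]
      constructor
      · rintro ⟨j, hj, hy⟩
        have : j = i := hsinj (hj.trans hsi.symm)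
        rw [← this]; exact hy
      · intro hy
        exact ⟨i, hsi, hy⟩
  · rintro x hx y hy hxy e ⟨i, hi, hei⟩ ⟨j, hj, hej⟩
    have hij : i ≠ j := by
      rintro rfl
      exact hxy (hi.symm.trans hj)
    exact hp2 i j hij e hei hej

theorem exists_edge_of_support {V : Type} {G : SimpleGraph V} {u v w : V} (p : G.Walk u v)
    (huv : u ≠ v) (hw : w ∈ p.support) : ∃ e ∈ p.edges, w ∈ e := by
  rcases SimpleGraph.Walk.mem_support_iff_exists_mem_edges.1 hw with h | h
  · subst h
    have h2 : w ∈ p.reverse.support := p.reverse.start_mem_support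
    rcases SimpleGraph.Walk.mem_support_iff_exists_mem_edges.1 h2 with h3 | ⟨e, he, hwe⟩
    · exact absurd h3.symm huv
    · rw [SimpleGraph.Walk.edges_reverse, List.mem_reverse] at he
      exact ⟨e, he, hwe⟩
  · exact h

/-- load of a vertex in one routing -/
theorem route_load {V : Type} [Fintype V] (G : SimpleGraph V) [DecidableRel G.Adj] (S : Finset V)
    (m : V → V) (hm : ∀ x ∈ S, x ≠ m x) (Zs : V → Set V) (Es : V → Set (Sym2 V))
    (h1 : ∀ x ∈ S, ∃ p : G.Walk x (m x), (∀ y, y ∈ Zs x ↔ y ∈ p.support) ∧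
        (∀ e, e ∈ Es x ↔ e ∈ p.edges))
    (h2 : ∀ x ∈ S, ∀ y ∈ S, x ≠ y → ∀ e ∈ Es x, e ∉ Es y) (w : V)
    (L : Finset V) (hL : ∀ x ∈ L, x ∈ S ∧ w ∈ Zs x) : L.card ≤ G.degree w := by
  classical
  rw [← SimpleGraph.card_incidenceFinset_eq_degree]
  have h3 : ∀ x, ∃ e : Sym2 V, x ∈ L → (e ∈ Es x ∧ e ∈ G.incidenceFinset w) := by
    intro x
    by_cases hx : x ∈ L
    · obtain ⟨hxS, hwZ⟩ := hL x hx
      obtain ⟨p, hp1, hp2⟩ := h1 x hxS
      obtain ⟨e, he, hwe⟩ := exists_edge_of_support p (hm x hxS) ((hp1 w).1 hwZ)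
      refine ⟨e, fun _ => ⟨(hp2 e).2 he, ?_⟩⟩
      rw [SimpleGraph.mem_incidenceFinset]
      exact ⟨p.edges_subset_edgeSet he, hwe⟩
    · exact ⟨s(x, x), fun h => absurd h hx⟩
  choose E hE using h3
  apply Finset.card_le_card_of_injOn E
  · intro x hx
    exact Finset.mem_coe.2 (hE x (Finset.mem_coe.1 hx)).2
  · intro x hx y hy hxy
    by_contra hne
    have hx' := hE x (Finset.mem_coe.1 hx)
    have hy' := hE y (Finset.mem_coe.1 hy)
    rw [← hxy] at hy'
    exact h2 x (hL x (Finset.mem_coe.1 hx)).1 y (hL y (Finset.mem_coe.1 hy)).1 hne _ hx'.1 hy'.1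

/-- the all-pairs system: every pair of distinct vertices gets a path, and every vertex `w` lies on
at most `2 n deg w` of them (ordered pairs) -/
theorem all_pairs {V : Type} [Fintype V] (G : SimpleGraph V) [DecidableRel G.Adj]
    (hn : 0 < Fintype.card V) (hpp : PPair G) :
    ∃ Z : V → V → Set V, IsZ G Z ∧ ∀ (w : V) (L : Finset (V × V)),
      (∀ q ∈ L, q.1 ≠ q.2 ∧ w ∈ Z q.1 q.2) → L.card ≤ 2 * Fintype.card V * G.degree w := by
  classical
  set n := Fintype.card V with hnn
  have : NeZero n := ⟨hn.ne'⟩
  have ecard : Fintype.card V = Fintype.card (ZMod n) := by rw [ZMod.card]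
  let e : V ≃ ZMod n := Fintype.equivOfCardEq ecard
  let m : ZMod n → V → V := fun c x => e.symm (c - e x)
  let S : ZMod n → Finset V := fun c => univ.filter (fun x => (e x).val < (c - e x).val)
  have hSm : ∀ c x, x ∈ S c ↔ (e x).val < (c - e x).val := by
    intro c x; simp [S]
  have hinj : ∀ c, Set.InjOn (m c) (S c) := by
    intro c x _ y _ h
    have h1 : c - e x = c - e y := e.symm.injective h
    have h2 : e x = e y := by
      have := congrArg (fun z => c - z) h1
      simpa using this
    exact e.injective h2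
  have hdis : ∀ c, ∀ x ∈ S c, m c x ∉ S c := by
    intro c x hx hmx
    rw [hSm] at hx hmx
    simp only [m, Equiv.apply_symm_apply, sub_sub_cancel] at hmx
    exact absurd hx (not_lt.2 hmx.le)
  have hne : ∀ c, ∀ x ∈ S c, x ≠ m c x := by
    intro c x hx h
    exact hdis c x hx (h ▸ hx)
  choose Zs Es hZs hEs using fun c => route G hpp (S c) (m c) (hinj c) (hdis c)
  let Z : V → V → Set V := fun u v =>
    if (e u).val < (e v).val then Zs (e u + e v) u else Zs (e u + e v) v
  have hcase : ∀ u v, u ≠ v → ¬ (e u).val < (e v).val → (e v).val < (e u).val := by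
    intro u v huv h
    rcases Nat.lt_trichotomy (e u).val (e v).val with h' | h' | h'
    · exact absurd h' h
    · exact absurd (e.injective (ZMod.val_injective n h')) huv
    · exact h'
  refine ⟨Z, ?_, ?_⟩
  · intro u v huv
    by_cases h : (e u).val < (e v).val
    · have hu : u ∈ S (e u + e v) := by
        rw [hSm]; simpa using h
      obtain ⟨p, hp, -⟩ := hZs (e u + e v) u hu
      have hm : m (e u + e v) u = v := by simp [m]
      refine ⟨p.copy rfl hm, ?_⟩
      intro x
      rw [SimpleGraph.Walk.support_copy, ← hp x]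
      simp only [Z, if_pos h]
    · have h' := hcase u v huv h
      have hv : v ∈ S (e u + e v) := by
        rw [hSm]; simpa using h'
      obtain ⟨p, hp, -⟩ := hZs (e u + e v) v hv
      have hm : m (e u + e v) v = u := by simp [m]
      refine ⟨(p.copy rfl hm).reverse, ?_⟩
      intro x
      rw [SimpleGraph.Walk.support_reverse, List.mem_reverse, SimpleGraph.Walk.support_copy, ← hp x]
      simp only [Z, if_neg h]
  · intro w L hL
    -- inject L into the sigma type
    let T : ZMod n × Bool → Finset V := fun cb => (S cb.1).filter (fun x => w ∈ Zs cb.1 x)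
    have hT : ∀ cb, (T cb).card ≤ G.degree w := by
      intro cb
      apply route_load G (S cb.1) (m cb.1) (hne cb.1) (Zs cb.1) (Es cb.1) (hZs cb.1) (hEs cb.1) w
      intro x hx
      exact Finset.mem_filter.1 hx
    have h1 : L.card ≤ (Finset.univ.sigma T).card := by
      apply Finset.card_le_card_of_injOn (fun q =>
        (⟨(e q.1 + e q.2, decide ((e q.1).val < (e q.2).val)),
          if (e q.1).val < (e q.2).val then q.1 else q.2⟩ : (_ : ZMod n × Bool) × V))
      · rintro ⟨u, v⟩ hq
        obtain ⟨huv, hw⟩ := hL (u, v) (Finset.mem_coe.1 hq)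
        simp only at huv hw
        apply Finset.mem_coe.2
        rw [Finset.mem_sigma]
        refine ⟨Finset.mem_univ _, ?_⟩
        simp only [T]
        rw [Finset.mem_filter, hSm]
        by_cases h : (e u).val < (e v).val
        · simp only [Z, if_pos h] at hw
          simp only [if_pos h]
          exact ⟨by simpa using h, hw⟩
        · simp only [Z, if_neg h] at hw
          simp only [if_neg h]
          exact ⟨by simpa using hcase u v huv h, hw⟩
      · rintro ⟨u, v⟩ _ ⟨u', v'⟩ _ h
        simp only [Sigma.mk.injEq, Prod.mk.injEq, heq_eq_eq] at h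
        obtain ⟨⟨h1, h2⟩, h3⟩ := h
        by_cases h4 : (e u).val < (e v).val
        · have h5 : (e u').val < (e v').val := by
            by_contra h5
            simp [h4, h5] at h2
          rw [if_pos h4, if_pos h5] at h3
          subst h3
          have h6 : e v = e v' := add_left_cancel h1
          rw [e.injective h6]
        · have h5 : ¬ (e u').val < (e v').val := by
            intro h5
            simp [h4, h5] at h2
          rw [if_neg h4, if_neg h5] at h3
          subst h3
          have h6 : e u = e u' := add_right_cancel h1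
          rw [e.injective h6]
    refine h1.trans ?_
    rw [Finset.card_sigma]
    refine (Finset.sum_le_card_nsmul _ _ _ (fun cb _ => hT cb)).trans ?_
    rw [Finset.card_univ, Fintype.card_prod, ZMod.card, Fintype.card_bool, smul_eq_mul]
    rw [mul_comm n 2]

end Pool.Agent.TH953.PP
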