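import Mathlib
import Pool.Agent.TH953.PathPair2

set_option autoImplicit false

namespace Pool.Agent.TH953.PP

open Finset

/-- number of functions whose restriction along an injection `k` lies in `R` -/
theorem card_restrict_le {T V : Type} [Fintype T] [DecidableEq T] [Fintype V] [DecidableEq V]
    {r : ℕ} (k : Fin r → T) (hk : Function.Injective k) (R : Finset (Fin r → V)) :
    (univ.filter (fun φ : T → V => φ ∘ k ∈ R)).card ≤
      R.card * Fintype.card V ^ (Fintype.card T - r) := by
  classical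
  have h1 : Fintype.card ({t : T // t ∉ Set.range k} → V) =
      Fintype.card V ^ (Fintype.card T - r) := by
    rw [Fintype.card_fun]
    congr 1
    rw [Fintype.card_subtype_compl]
    congr 1
    exact (Fintype.card_congr (Equiv.ofInjective k hk)).symm.trans (Fintype.card_fin r)
  have h2 : (univ.filter (fun φ : T → V => φ ∘ k ∈ R)).card ≤
      (R ×ˢ (univ : Finset ({t : T // t ∉ Set.range k} → V))).card := by
    apply Finset.card_le_card_of_injOn (fun φ => (φ ∘ k, fun t => φ t.1))
    · intro φ hφ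
      have := (Finset.mem_filter.1 (Finset.mem_coe.1 hφ)).2
      exact Finset.mem_coe.2 (Finset.mem_product.2 ⟨this, Finset.mem_univ _⟩)
    · intro φ _ ψ _ h
      obtain ⟨h3, h4⟩ := Prod.mk.inj h
      funext t
      by_cases ht : t ∈ Set.range k
      · obtain ⟨i, rfl⟩ := ht
        exact congrFun h3 i
      · exact congrFun h4 ⟨t, ht⟩
  refine h2.trans ?_
  rw [Finset.card_product, Finset.card_univ, h1]

/-- counting argument -/
theorem count_bad {T V : Type} [Fintype T] [DecidableEq T] [Fintype V] [DecidableEq V]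
    (R4 : Finset (Fin 4 → V)) (hT : 4 ≤ Fintype.card T)
    (hn : 2 * Fintype.card T ^ 2 ≤ Fintype.card V)
    (h : ∀ φ : T → V, Function.Injective φ → ∃ k : Fin 4 → T, Function.Injective k ∧ φ ∘ k ∈ R4) :
    Fintype.card V ^ 4 ≤ 2 * Fintype.card T ^ 4 * R4.card := by
  classical
  set n := Fintype.card V with hnn
  set m := Fintype.card T with hmm
  have hn0 : 0 < n := by
    have : 0 < m ^ 2 := by positivity
    omega
  -- diagonal set
  let R2 : Finset (Fin 2 → V) := univ.filter (fun g => g 0 = g 1)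
  have hR2 : R2.card ≤ n := by
    have : R2.card ≤ (univ : Finset V).card := by
      apply Finset.card_le_card_of_injOn (fun g => g 0) (fun _ _ => Finset.mem_coe.2 (mem_univ _))
      intro g hg g' hg' hgg
      have h1 := (Finset.mem_filter.1 (Finset.mem_coe.1 hg)).2
      have h2 := (Finset.mem_filter.1 (Finset.mem_coe.1 hg')).2
      have h3 : g 0 = g' 0 := hgg
      funext i
      fin_cases i
      · exact h3
      · change g 1 = g' 1
        rw [← h1, ← h2, h3]
    rwa [Finset.card_univ] at this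
  have hcover : (univ : Finset (T → V)) ⊆
      ((univ.filter (fun k : Fin 2 → T => Function.Injective k)).biUnion
        (fun k => univ.filter (fun φ : T → V => φ ∘ k ∈ R2))) ∪
      ((univ.filter (fun k : Fin 4 → T => Function.Injective k)).biUnion
        (fun k => univ.filter (fun φ : T → V => φ ∘ k ∈ R4))) := by
    intro φ _
    rw [Finset.mem_union]
    by_cases hφ : Function.Injective φ
    · right
      obtain ⟨k, hk, hk2⟩ := h φ hφ
      rw [Finset.mem_biUnion]
      exact ⟨k, Finset.mem_filter.2 ⟨mem_univ _, hk⟩, Finset.mem_filter.2 ⟨mem_univ _, hk2⟩⟩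
    · left
      rw [Function.Injective] at hφ
      push Not at hφ
      obtain ⟨a, b, hab, hne⟩ := hφ
      rw [Finset.mem_biUnion]
      refine ⟨![a, b], Finset.mem_filter.2 ⟨mem_univ _, ?_⟩, Finset.mem_filter.2 ⟨mem_univ _,
        Finset.mem_filter.2 ⟨mem_univ _, ?_⟩⟩⟩
      · intro i j hij
        fin_cases i <;> fin_cases j
        · rfl
        · exact absurd hij hne
        · exact absurd hij.symm hne
        · rfl
      · simpa using hab
  have hk2 : ((univ.filter (fun k : Fin 2 → T => Function.Injective k))).card ≤ m ^ 2 := by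
    refine (Finset.card_filter_le _ _).trans ?_
    rw [Finset.card_univ, Fintype.card_fun, Fintype.card_fin]
  have hk4 : ((univ.filter (fun k : Fin 4 → T => Function.Injective k))).card ≤ m ^ 4 := by
    refine (Finset.card_filter_le _ _).trans ?_
    rw [Finset.card_univ, Fintype.card_fun, Fintype.card_fin]
  have hA : (((univ.filter (fun k : Fin 2 → T => Function.Injective k)).biUnion
        (fun k => univ.filter (fun φ : T → V => φ ∘ k ∈ R2)))).card ≤ m ^ 2 * (n * n ^ (m - 2)) := by
    refine Finset.card_biUnion_le.trans ?_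
    refine (Finset.sum_le_card_nsmul _ _ (n * n ^ (m - 2)) ?_).trans ?_
    · intro k hk
      refine (card_restrict_le k (Finset.mem_filter.1 hk).2 R2).trans ?_
      exact Nat.mul_le_mul_right _ hR2
    · rw [smul_eq_mul]
      exact Nat.mul_le_mul_right _ hk2
  have hB : (((univ.filter (fun k : Fin 4 → T => Function.Injective k)).biUnion
        (fun k => univ.filter (fun φ : T → V => φ ∘ k ∈ R4)))).card ≤
        m ^ 4 * (R4.card * n ^ (m - 4)) := by
    refine Finset.card_biUnion_le.trans ?_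
    refine (Finset.sum_le_card_nsmul _ _ (R4.card * n ^ (m - 4)) ?_).trans ?_
    · intro k hk
      exact card_restrict_le k (Finset.mem_filter.1 hk).2 R4
    · rw [smul_eq_mul]
      exact Nat.mul_le_mul_right _ hk4
  have htot := (Finset.card_le_card hcover).trans (Finset.card_union_le _ _)
  rw [Finset.card_univ, Fintype.card_fun] at htot
  have h3 : n ^ m ≤ m ^ 2 * (n * n ^ (m - 2)) + m ^ 4 * (R4.card * n ^ (m - 4)) :=
    htot.trans (add_le_add hA hB)
  obtain ⟨q, hq⟩ : ∃ q, m = q + 4 := ⟨m - 4, by omega⟩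
  have e1 : m - 2 = q + 2 := by omega
  have e2 : m - 4 = q := by omega
  rw [e1, e2] at h3
  have h4 : n ^ m = n ^ 4 * n ^ q := by rw [hq, pow_add, mul_comm]
  have h5 : n * n ^ (q + 2) = n ^ 3 * n ^ q := by ring
  rw [h4, h5] at h3
  have h6 : n ^ 4 * n ^ q ≤ (m ^ 2 * n ^ 3 + m ^ 4 * R4.card) * n ^ q := by
    refine h3.trans (le_of_eq ?_)
    ring
  have h7 : n ^ 4 ≤ m ^ 2 * n ^ 3 + m ^ 4 * R4.card :=
    Nat.le_of_mul_le_mul_right h6 (by positivity)
  have h8 : 2 * (m ^ 2 * n ^ 3) ≤ n ^ 4 := by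
    calc 2 * (m ^ 2 * n ^ 3) = (2 * m ^ 2) * n ^ 3 := by ring
      _ ≤ n * n ^ 3 := Nat.mul_le_mul_right _ hn
      _ = n ^ 4 := by ring
  have h9 : 2 * m ^ 4 * R4.card = 2 * (m ^ 4 * R4.card) := by ring
  omega

theorem inj4 {T : Type} {a b c d : T} (hab : a ≠ b) (hac : a ≠ c) (had : a ≠ d) (hbc : b ≠ c)
    (hbd : b ≠ d) (hcd : c ≠ d) : Function.Injective ![a, b, c, d] := by
  have e0 : ![a, b, c, d] 0 = a := rfl
  have e1 : ![a, b, c, d] 1 = b := rfl
  have e2 : ![a, b, c, d] 2 = c := rfl
  have e3 : ![a, b, c, d] 3 = d := rfl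
  intro i j hij
  rcases i with ⟨i, hi⟩
  rcases j with ⟨j, hj⟩
  interval_cases i <;> interval_cases j <;>
  first
  | rfl
  | exact absurd hij hab
  | exact absurd hij hac
  | exact absurd hij had
  | exact absurd hij hbc
  | exact absurd hij hbd
  | exact absurd hij hcd
  | exact absurd hij.symm hab
  | exact absurd hij.symm hac
  | exact absurd hij.symm had
  | exact absurd hij.symm hbc
  | exact absurd hij.symm hbd
  | exact absurd hij.symm hcd

/-- the key inequality -/
theorem key_ineq {V : Type} [Fintype V] (G : SimpleGraph V) [DecidableRel G.Adj] (t : ℕ)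
    (ht : 2 ≤ t) (hpp : PPair G) (hn : 2 * (t * t) ^ 2 ≤ Fintype.card V)
    (hmin : ¬ ∃ f : Fin t → Set V,
            (∀ i, (G.induce (f i)).Connected) ∧
            (∀ i j, i ≠ j → Disjoint (f i) (f j)) ∧
            (∀ i j, i ≠ j → ∃ u ∈ f i, ∃ v ∈ f j, G.Adj u v)) :
    Fintype.card V ^ 2 ≤ 8 * (t * t) ^ 4 * ∑ w : V, G.degree w ^ 2 := by
  classical
  set n := Fintype.card V with hnn
  have hn0 : 0 < n := by
    have : 0 < (t * t) ^ 2 := by positivity
    omega
  obtain ⟨Z, hZ, hload⟩ := all_pairs G hn0 hpp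
  -- bad quadruples
  let R4 : Finset (Fin 4 → V) := univ.filter (fun g => g 0 ≠ g 1 ∧ g 2 ≠ g 3 ∧
    ∃ w, w ∈ Z (g 0) (g 1) ∧ w ∈ Z (g 2) (g 3))
  have hcT : Fintype.card (Fin t × Fin t) = t * t := by simp
  have h1 : n ^ 4 ≤ 2 * (t * t) ^ 4 * R4.card := by
    have := count_bad (T := Fin t × Fin t) (V := V) R4 (by rw [hcT]; nlinarith) (by rw [hcT]; exact hn) ?_
    · rwa [hcT] at this
    · intro φ hφ
      by_contra hcon
      push Not at hcon
      apply hmin
      apply model_of_noncrossing G Z hZ φ hφ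
      intro a b c d hab hcd hac had hbc hbd
      rw [Set.disjoint_left]
      intro w hw1 hw2
      apply hcon ![a, b, c, d] ?_ ?_
      · exact inj4 hab hac had hbc hbd hcd
      · refine Finset.mem_filter.2 ⟨mem_univ _, ?_, ?_, w, ?_, ?_⟩
        · exact fun h' => hab (hφ h')
        · exact fun h' => hcd (hφ h')
        · exact hw1
        · exact hw2
  let L : V → Finset (V × V) := fun w => univ.filter (fun q => q.1 ≠ q.2 ∧ w ∈ Z q.1 q.2)
  have hL : ∀ w, (L w).card ≤ 2 * n * G.degree w := by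
    intro w
    apply hload w (L w)
    intro q hq
    exact (Finset.mem_filter.1 hq).2
  have h2 : R4.card ≤ ∑ w : V, (L w ×ˢ L w).card := by
    rw [← Finset.card_sigma]
    have hw : ∀ g : Fin 4 → V, ∃ w : V, g ∈ R4 → (w ∈ Z (g 0) (g 1) ∧ w ∈ Z (g 2) (g 3)) := by
      intro g
      by_cases hg : g ∈ R4
      · obtain ⟨-, -, -, w, hw⟩ := Finset.mem_filter.1 hg
        exact ⟨w, fun _ => hw⟩
      · exact ⟨g 0, fun h => absurd h hg⟩
    choose W hW using hw
    apply Finset.card_le_card_of_injOn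
      (fun g => (⟨W g, ((g 0, g 1), (g 2, g 3))⟩ : (_ : V) × ((V × V) × (V × V))))
    · intro g hg
      have hg' := Finset.mem_coe.1 hg
      obtain ⟨-, h01, h23, -⟩ := Finset.mem_filter.1 hg'
      obtain ⟨hw1, hw2⟩ := hW g hg'
      apply Finset.mem_coe.2
      rw [Finset.mem_sigma]
      refine ⟨mem_univ _, Finset.mem_product.2 ⟨?_, ?_⟩⟩
      · exact Finset.mem_filter.2 ⟨mem_univ _, h01, hw1⟩
      · exact Finset.mem_filter.2 ⟨mem_univ _, h23, hw2⟩
    · intro g _ g' _ h
      simp only [Sigma.mk.injEq, heq_eq_eq, Prod.mk.injEq] at h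
      obtain ⟨-, ⟨h0, h1⟩, h2, h3⟩ := h
      funext i
      fin_cases i
      · exact h0
      · exact h1
      · exact h2
      · exact h3
  have h3 : ∑ w : V, (L w ×ˢ L w).card ≤ ∑ w : V, 4 * n ^ 2 * G.degree w ^ 2 := by
    apply Finset.sum_le_sum
    intro w _
    rw [Finset.card_product]
    calc (L w).card * (L w).card ≤ (2 * n * G.degree w) * (2 * n * G.degree w) :=
          Nat.mul_le_mul (hL w) (hL w)
      _ = 4 * n ^ 2 * G.degree w ^ 2 := by ring
  rw [← Finset.mul_sum] at h3
  have h4 : n ^ 2 * n ^ 2 ≤ (8 * (t * t) ^ 4 * ∑ w : V, G.degree w ^ 2) * n ^ 2 := by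
    calc n ^ 2 * n ^ 2 = n ^ 4 := by ring
      _ ≤ 2 * (t * t) ^ 4 * R4.card := h1
      _ ≤ 2 * (t * t) ^ 4 * (4 * n ^ 2 * ∑ w : V, G.degree w ^ 2) :=
          Nat.mul_le_mul_left _ (h2.trans h3)
      _ = (8 * (t * t) ^ 4 * ∑ w : V, G.degree w ^ 2) * n ^ 2 := by ring
  exact Nat.le_of_mul_le_mul_right h4 (by positivity)

end Pool.Agent.TH953.PP
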